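import Pool.Agent.H21.GH.Mot
import Pool.Graph.R_pool_sql_team_seeded_2aa45f1a.Results.MP_898f40_nt.HypergraphCubics

/-!
# MP_898f40_nt: independence of `ℓ` of the local Euler factors, and graph hypersurfaces

For a finite simple graph `G` let `Ĝ` be the cone over `G` (one more vertex, joined to all vertices of
`G`). The graph hypersurface `X_G = kirS ℚ G` is the zero set of the determinant of the reduced
Laplacian of `Ĝ` with variable weights of the edges. By the theorem of Kirchhoff this determinant is the
sum of the products `∏_{e ∈ T} x_e` over the spanning trees `T` of `Ĝ`.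

Let `p` be a prime. As in the library file `HypergraphCubics`, for a separated scheme `X` of finite type
over `ℚ`, a prime `ℓ ≠ p` and an integer `i` let

`P_{ℓ, i}(X, T) = ∏_n det (1 - F_p T | (Gr^W_i H^n_c(X ⊗ ℚ̄, ℚ_ℓ))^{I_p})^{(-1)^{n - i}}`

be the alternating product of the local factors at `p` of the parts of weight `i` of the cohomology with
compact supports (`FactorData`, with the standard properties `IsFactor`). For smooth projective `Y` this
is the polynomial `P_{p, ℓ}` of the problem. For smooth projective `Y` the statement `Claim D Y` is the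
one of question Q1, for `Y`, all `i` and the prime `p`; for arbitrary `X` the statement `Independent D X`
says that all `P_{ℓ, i}(X, T)` have rational coefficients that do not depend on `ℓ ≠ p`.

**Theorem.** The following are equivalent: the statement of Q1 for the prime `p` is true for all smooth
projective varieties over `ℚ`; all separated schemes of finite type over `ℚ` satisfy `Independent`; the
graph hypersurfaces `X_G` of all finite graphs `G` satisfy `Independent`.
-/

set_option autoImplicit false

open CategoryTheory AlgebraicGeometry Pool.Agent.Y116.UV Pool.Agent.Z125.UN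
  Pool.Agent.Q193.LT Pool.Agent.Q148.LI Pool.Agent.H21.GH
  Pool.Agent.Results.MP_898f40_nt.HypergraphCubics

namespace Pool.Agent.Results.MP_898f40_nt.GraphHypersurfaces

lemma two_of_three {p : ℕ} {D : FactorData ℚ p} (hD : IsFactor D) : TwoOfThree (Independent D) where
  iso hX e h i := by
    obtain ⟨f, hf⟩ := h i
    exact ⟨f, fun l => by rw [← hD.iso hX e l i]; exact hf l⟩
  total {Z X U} a b hX ht hZ hU n := by
    have h1 : (fun l => D.P l n X) = (fun l => D.P l n Z) * fun l => D.P l n U :=
      funext fun l => hD.triple a b hX ht l n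
    have h2 : Ind (fun l => D.P l n X) := by
      rw [h1]
      exact Ind.mul (hZ n) (hU n)
    exact h2
  opened {Z X U} a b hX ht hZ hX' n := by
    have h1 : (fun l => D.P l n U) = (fun l => D.P l n X) * (fun l => D.P l n Z)⁻¹ := by
      funext l
      rw [Pi.mul_apply, Pi.inv_apply, hD.triple a b hX ht l n, mul_comm (D.P l n Z), mul_inv_cancel_right]
    have h2 : Ind (fun l => D.P l n U) := by
      rw [h1]
      exact Ind.mul (hX' n) (Ind.inv (hZ n))
    exact h2
  closed {Z X U} a b hX ht hX' hU n := by
    have h1 : (fun l => D.P l n Z) = (fun l => D.P l n X) * (fun l => D.P l n U)⁻¹ := by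
      funext l
      rw [Pi.mul_apply, Pi.inv_apply, hD.triple a b hX ht l n, mul_inv_cancel_right]
    have h2 : Ind (fun l => D.P l n Z) := by
      rw [h1]
      exact Ind.mul (hX' n) (Ind.inv (hU n))
    exact h2

/-- **Independence of `ℓ` and graph hypersurfaces.** See the explanations above. `hk` is Hironaka's
theorem. -/
theorem result {p : ℕ} [Fact p.Prime] {D : FactorData ℚ p} (hD : IsFactor D)
    (hi : IntegralFactors D) (hk : Hironaka ℚ) :
    List.TFAE [
      ∀ Y : Sch ℚ, SmoothProj Y → Claim D Y,
      ∀ X : Sch ℚ, FT True X → Independent D X,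
      ∀ (n : ℕ) (G : SimpleGraph (Fin n)), Independent D (kirS ℚ G)] := by
  have hall : (∀ Y : Sch ℚ, SmoothProj Y → Claim D Y) ↔
      ∀ Y : Sch ℚ, SmoothProj Y → Independent D Y :=
    ⟨fun h Y hY => (claim_iff hi hY).mp (h Y hY), fun h Y hY => (claim_iff hi hY).mpr (h Y hY)⟩
  tfae_have 2 → 3 := fun h n G => h _ (ft_kirS G True)
  tfae_have 3 → 2 := fun h => by
    have hp : Independent D (aff ℚ ℚ) := (two_of_three hD).iso (ft_kirS _ True) (kirS_point ℚ) (h 1 ⊥)
    exact universal frac_rat (bnd_factor hD hp) h
  tfae_have 2 → 1 := fun h => hall.mpr fun Y hY => h Y hY.ft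
  tfae_have 1 → 2 := fun h => by
    have h1 := hall.mp h
    have hp : Independent D (aff ℚ ℚ) := by
      refine hk 0 _ (two_of_three hD) (fun Y hY _ => h1 Y hY) (aff ℚ ℚ) (ft_aff True) ?_
      rw [topDim_aff, ringKrullDim_eq_zero_of_field]
      exact_mod_cast le_refl 0
    have hB := bnd_factor hD hp
    exact (all_iff hB).mpr ((sp_all_iff hk hB).mp h1)
  tfae_finish

end Pool.Agent.Results.MP_898f40_nt.GraphHypersurfaces
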